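import Pool.Agent.Q288.KP.Fin

/-!
# The Knörr–Robinson conjecture follows from an approximate form

For a prime `p` and a finite group `G` put `e(G) = k(G) - χ₂(G)`, `χ₂` the second equivariant Euler
characteristic of the poset of nontrivial `p`-subgroups, and let `z(G)` be the number of irreducible
characters of `p`-defect zero. The conjecture is `e(G) = z(G)`. Both numbers are multiplicative for
direct products. So `e(G) = z(G)` for all `G` as soon as, for every `ε > 0`, the two numbers agree for
all `G` up to a factor `K |G|_p ^ ε`, and each of the two inequalities follows from its approximate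
form.
-/

set_option autoImplicit false

namespace Pool.Agent.Results.MP_b6945b_al.ApproximateForm

open Pool.Agent.Y63.KR (chi2 KRC)
open Pool.Agent.Y63.AWC (numDefectZero)
open Pool.Agent.Q288.KP

/-- `k(G) - χ₂(G)`, the negative of the reduced second equivariant Euler characteristic of the poset of
the nontrivial `p`-subgroups -/
noncomputable def excess (p : ℕ) (G : Type) [Group G] : ℝ :=
  (Nat.card (ConjClasses G) : ℝ) - (chi2 p G : ℝ)

/-- the number of irreducible characters of `p`-defect zero -/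
noncomputable def z (p : ℕ) (G : Type) [Group G] : ℝ := (numDefectZero p G : ℝ)

/-- For every `ε > 0` there is a `K > 0` with `x(G) ≤ K |G|_p ^ ε y(G)` for all finite groups `G` in
the class `C`. -/
def ApproxLe (p : ℕ) (C : (G : Type) → Group G → Prop) (x y : (G : Type) → [Group G] → ℝ) : Prop :=
  ∀ ε : ℝ, 0 < ε → ∃ K : ℝ, 0 < K ∧ ∀ (G : Type) [i : Group G] [Finite G], C G i →
    x G ≤ K * (pPart p G : ℝ) ^ ε * y G

theorem excess_eq {p : ℕ} [Fact p.Prime] (G : Type) [Group G] [Finite G] :
    excess p G = (Pool.Agent.Q90.WR.altK p G : ℝ) := by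
  have h := Pool.Agent.Y63.KR.altSum_classes (p := p) (G := G)
  have h1 : ((Pool.Agent.Q90.WR.altK p G : ℤ) : ℚ) = (Nat.card (ConjClasses G) : ℚ) - chi2 p G := h
  have h2 : ((Pool.Agent.Q90.WR.altK p G : ℤ) : ℝ) =
      (Nat.card (ConjClasses G) : ℝ) - (chi2 p G : ℝ) := by
    exact_mod_cast congrArg (fun q : ℚ => (q : ℝ)) h1
  exact h2.symm

theorem krc_iff' {p : ℕ} [Fact p.Prime] (G : Type) [Group G] [Finite G] :
    KRC p G ↔ excess p G ≤ z p G ∧ z p G ≤ excess p G := by
  rw [Pool.Agent.Q90.WR.krc_altK, excess_eq, z]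
  constructor
  · intro h
    rw [h]
    push_cast
    exact ⟨le_rfl, le_rfl⟩
  · rintro ⟨h1, h2⟩
    have h3 : (Pool.Agent.Q90.WR.altK p G : ℝ) = ((numDefectZero p G : ℤ) : ℝ) := by
      push_cast
      exact le_antisymm h1 h2
    exact_mod_cast h3

/-- Let `p` be a prime number. (1) For every class `C` of finite groups closed under `G ↦ G × G` (for
instance all finite groups) each of the inequalities `e(G) ≤ z(G)` and `z(G) ≤ e(G)` holds for all
`G` in `C` if and only if it holds approximately, and the Knörr–Robinson conjecture holds for all `G`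
in `C` if and only if both inequalities hold approximately.
(2) The conjecture holds for a finite group `G` if and only if for every `ε > 0` the numbers `e` and
`z` of the direct powers of `G` of exponents `2 ^ j` agree up to a factor `K |G|_p ^ (ε 2 ^ j)`. -/
theorem result (p : ℕ) [Fact p.Prime] :
    (∀ C : (G : Type) → Group G → Prop,
      (∀ (G : Type) [i : Group G] [Finite G], C G i → C (G × G) inferInstance) →
      ((∀ (G : Type) [i : Group G] [Finite G], C G i → excess p G ≤ z p G) ↔
        ApproxLe p C (excess p) (z p)) ∧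
      ((∀ (G : Type) [i : Group G] [Finite G], C G i → z p G ≤ excess p G) ↔
        ApproxLe p C (z p) (excess p)) ∧
      ((∀ (G : Type) [i : Group G] [Finite G], C G i → KRC p G) ↔
        ApproxLe p C (excess p) (z p) ∧ ApproxLe p C (z p) (excess p))) ∧
    (∀ (G : Type) [Group G] [Finite G], KRC p G ↔
      ∀ ε : ℝ, 0 < ε → ∃ K : ℝ, 0 < K ∧ ∀ j : ℕ,
        excess p (SqN j G) ≤ K * (pPart p (SqN j G) : ℝ) ^ ε * z p (SqN j G) ∧
        z p (SqN j G) ≤ K * (pPart p (SqN j G) : ℝ) ^ ε * excess p (SqN j G)) := by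
  have hz : ∀ (G : Type) [Group G], 0 ≤ z p G := fun G _ => Nat.cast_nonneg _
  have hle : ∀ (G : Type) [Group G] [Finite G], (∀ ε : ℝ, 0 < ε → ∃ K : ℝ, 0 < K ∧ ∀ j : ℕ,
      excess p (SqN j G) ≤ K * (pPart p (SqN j G) : ℝ) ^ ε * z p (SqN j G)) →
      excess p G ≤ z p G := by
    intro G _ _ h
    rw [excess_eq, z]
    have h1 := base_le (p := p) G fun ε hε => by
      obtain ⟨K, hK, h1⟩ := h ε hε
      refine ⟨K, hK, fun j => ?_⟩
      have h2 := h1 j
      rw [excess_eq, z] at h2
      exact h2
    exact_mod_cast h1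
  have hge : ∀ (G : Type) [Group G] [Finite G], (∀ ε : ℝ, 0 < ε → ∃ K : ℝ, 0 < K ∧ ∀ j : ℕ,
      z p (SqN j G) ≤ K * (pPart p (SqN j G) : ℝ) ^ ε * excess p (SqN j G)) →
      z p G ≤ excess p G := by
    intro G _ _ h
    rw [excess_eq, z]
    have h1 := base_ge (p := p) G fun ε hε => by
      obtain ⟨K, hK, h1⟩ := h ε hε
      refine ⟨K, hK, fun j => ?_⟩
      have h2 := h1 j
      rw [excess_eq, z] at h2
      exact h2
    exact_mod_cast h1
  have a1 : ∀ C : (G : Type) → Group G → Prop,
      (∀ (G : Type) [i : Group G] [Finite G], C G i → C (G × G) inferInstance) →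
      ((∀ (G : Type) [i : Group G] [Finite G], C G i → excess p G ≤ z p G) ↔
        ApproxLe p C (excess p) (z p)) := by
    intro C hC
    constructor
    · intro h ε hε
      exact ⟨1, one_pos, fun G _ _ hG => le_mul_rpow (h G hG) (hz G) hε G⟩
    · intro h G _ _ hG
      refine hle G fun ε hε => ?_
      obtain ⟨K, hK, h1⟩ := h ε hε
      exact ⟨K, hK, fun j => h1 (SqN j G) (closed_SqN C hC j G hG)⟩
  have a2 : ∀ C : (G : Type) → Group G → Prop,
      (∀ (G : Type) [i : Group G] [Finite G], C G i → C (G × G) inferInstance) →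
      ((∀ (G : Type) [i : Group G] [Finite G], C G i → z p G ≤ excess p G) ↔
        ApproxLe p C (z p) (excess p)) := by
    intro C hC
    constructor
    · intro h ε hε
      exact ⟨1, one_pos, fun G _ _ hG => le_mul_rpow (h G hG) ((hz G).trans (h G hG)) hε G⟩
    · intro h G _ _ hG
      refine hge G fun ε hε => ?_
      obtain ⟨K, hK, h1⟩ := h ε hε
      exact ⟨K, hK, fun j => h1 (SqN j G) (closed_SqN C hC j G hG)⟩
  refine ⟨fun C hC => ⟨a1 C hC, a2 C hC, ?_⟩, ?_⟩
  · rw [← a1 C hC, ← a2 C hC]
    constructor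
    · intro h
      exact ⟨fun G _ _ hG => ((krc_iff' G).1 (h G hG)).1,
        fun G _ _ hG => ((krc_iff' G).1 (h G hG)).2⟩
    · rintro ⟨h1, h2⟩ G _ _ hG
      exact (krc_iff' G).2 ⟨h1 G hG, h2 G hG⟩
  · intro G _ _
    constructor
    · intro h ε hε
      refine ⟨1, one_pos, fun j => ?_⟩
      have h1 : Pool.Agent.Q90.WR.altK p (SqN j G) = numDefectZero p (SqN j G) := by
        induction j with
        | zero => exact (Pool.Agent.Q90.WR.krc_altK G).1 h
        | succ j ih => rw [(recursion j G).1, (recursion j G).2.1, ih]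
      have h2 : KRC p (SqN j G) := (Pool.Agent.Q90.WR.krc_altK _).2 h1
      obtain ⟨h3, h4⟩ := (krc_iff' _).1 h2
      exact ⟨le_mul_rpow h3 (hz _) hε _, le_mul_rpow h4 ((hz _).trans h4) hε _⟩
    · intro h
      refine (krc_iff' G).2 ⟨hle G fun ε hε => ?_, hge G fun ε hε => ?_⟩
      · obtain ⟨K, hK, h1⟩ := h ε hε
        exact ⟨K, hK, fun j => (h1 j).1⟩
      · obtain ⟨K, hK, h1⟩ := h ε hε
        exact ⟨K, hK, fun j => (h1 j).2⟩

end Pool.Agent.Results.MP_b6945b_al.ApproximateForm
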