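import Pool.Agent.Q90.WR.Krq

/-!
# The Knörr–Robinson conjecture at odd primes is a statement about parity

Let `p` be odd and `K(G) = -χ̃₂`, the reduced second equivariant Euler characteristic of the poset of
nontrivial `p`-subgroups with the sign changed. For the wreath product `Wr G` of `G` with a group of
order two `2 K(Wr G) = K(G)² + 3 K(G)`, and the number of characters of `p`-defect zero satisfies
the same formula. So if the difference of the two numbers is divisible by `2^(a+1)` for `G` and for
`Wr G`, then it is divisible by `2^(a+2)` for `G`. Modulo 2 only real classes and real characters
count.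
-/

set_option autoImplicit false

namespace Pool.Agent.Results.MP_b6945b_al.ParityDecides

open Pool.Agent.Q90.WR
open Pool.Agent.Y63.KR (KRC)

/-- Let `p` be an odd prime. `realChainClasses p H` is the sum of the numbers of real conjugacy
classes of the stabilisers of chains of nontrivial `p`-subgroups of `H`, one chain from each
`H`-class, the empty chain included; `numRealDefectZero p H` is the number of real-valued
irreducible characters of `H` of `p`-defect zero.
(1) `KRC_p(G)` holds if and only if for all iterated wreath products `H = (⋯(G ≀ C₂) ≀ ⋯) ≀ C₂`
(`G` itself included) the two numbers have the same parity.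
(2) The conjecture holds at `p` for all finite groups if and only if the two numbers have the same
parity for all finite groups. -/
theorem result (p : ℕ) [Fact p.Prime] (hp2 : p ≠ 2) :
    (∀ (G : Type) [Group G] [Finite G], KRC p G ↔
      ∀ j : ℕ, realChainClasses p (WrN j G) ≡ numRealDefectZero p (WrN j G) [MOD 2]) ∧
    ((∀ (G : Type) [Group G] [Finite G], KRC p G) ↔
      ∀ (G : Type) [Group G] [Finite G],
        realChainClasses p G ≡ numRealDefectZero p G [MOD 2]) :=
  ⟨fun G _ _ => krc_one hp2 G, krc_all hp2⟩

end Pool.Agent.Results.MP_b6945b_al.ParityDecides
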