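import Pool.Agent.Y63.KR.Levels

open scoped Classical

namespace Pool.Agent.Results.MP_b6945b_al.RationalityLevels

open Pool.Agent.Y63.KR
open Pool.Agent.Y63.AWC (numDefectZero)

/-- **The Knörr–Robinson conjecture and rationality levels.** Let `p` be a prime, `G` a finite
group.
(1) For every `a ≥ 1` (`a ≥ 3` if `p = 2`) the alternating sum, over the classes of chains `σ` of
nontrivial `p`-subgroups of `G`, of the numbers of conjugacy classes of `G_σ` of elements of
`p`-rationality level exactly `a` vanishes.
(2) Hence, for every `a ≥ 0` (`a ≥ 2` if `p = 2`), `KRC_p(G)` holds if and only if the alternating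
sum of the numbers of classes of `p^a`-rational elements of the `G_σ` is `z_p(G)`: for odd `p` only
the classes of `p`-rational elements (`a = 0`) matter. -/
theorem result (p : ℕ) [Fact p.Prime] (G : Type) [Group G] [Finite G] :
    (∀ a : ℕ, 1 ≤ a → (p = 2 → 3 ≤ a) →
      alternatingSum p G (fun H => (numLevel p a H : ℤ)) = 0) ∧
    (∀ a : ℕ, (p = 2 → 2 ≤ a) →
      (KRC p G ↔ alternatingSum p G (fun H => (numRational p a H : ℤ)) =
        (numDefectZero p G : ℤ))) :=
  ⟨fun a h1 h2 => sum_level a h1 h2, fun a ha => krc_iff a ha⟩

end Pool.Agent.Results.MP_b6945b_al.RationalityLevels
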