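import Pool.Agent.Y63.KR.Chi

open scoped Classical

namespace Pool.Agent.Results.MP_b6945b_al.SurfaceGroupContinuity

open Pool.Agent.Y63.KR
open Pool.Agent.Y63.AWC (numDefectZero)

/-- **The Knörr–Robinson conjecture as `p`-adic continuity in the genus.** For a finite group `G`, a
prime `p` and `g ≥ 1` let `surfaceChi p g G` be the reduced equivariant Euler characteristic
`|G|⁻¹ ∑_φ (χ(X^φ) - 1)` of the poset `X` of nontrivial `p`-subgroups, where `φ` runs over the
homomorphisms from the fundamental group of the closed orientable surface of genus `g` to `G` (for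
`g = 1` these are the commuting pairs).
(1) The conjecture `KRC_p(G)` says that the value in genus `1` is `-z_p(G)`.
(2) The analogue of the conjecture holds in higher genus in the limit: if `g ≥ 2` and
`p^N (p - 1)` divides `g - 1`, then the value in genus `g` is an integer congruent to `-z_p(G)`
modulo `p^(N+1)`.
(3) Hence `KRC_p(G)` holds if and only if the function `g ↦ surfaceChi p g G` is continuous at
`g = 1` along the sequences of genera `g` with `g - 1` divisible by `p - 1` and by high powers
of `p`, for the `p`-adic topology. -/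
theorem result (p : ℕ) [Fact p.Prime] (G : Type) [Group G] [Finite G] :
    (KRC p G ↔ surfaceChi p 1 G = -(numDefectZero p G : ℚ)) ∧
    (∀ N g : ℕ, 2 ≤ g → p ^ N * (p - 1) ∣ g - 1 →
      ∃ c : ℤ, surfaceChi p g G = -(numDefectZero p G : ℚ) + (p : ℚ) ^ (N + 1) * c) ∧
    (KRC p G ↔ ∀ N : ℕ, ∃ M : ℕ, ∀ g : ℕ, 2 ≤ g → p ^ M * (p - 1) ∣ g - 1 →
      ∃ c : ℤ, surfaceChi p g G - surfaceChi p 1 G = (p : ℚ) ^ N * c) := by
  have hsum := altSum_classes (p := p) (G := G)
  have hkrc : KRC p G ↔ alternatingSum p G (fun H => (Nat.card (ConjClasses H) : ℤ)) =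
      (numDefectZero p G : ℤ) := by
    unfold KRC
    constructor
    · intro h1
      rw [h1] at hsum
      have : ((alternatingSum p G (fun H => (Nat.card (ConjClasses H) : ℤ)) : ℤ) : ℚ) =
        ((numDefectZero p G : ℤ) : ℚ) := by
        rw [hsum]; push_cast; ring
      exact_mod_cast this
    · intro h1
      rw [h1] at hsum
      push_cast at hsum
      linarith
  have h1 : surfaceChi p 1 G =
      - ((alternatingSum p G (fun H => (Nat.card (ConjClasses H) : ℤ)) : ℤ) : ℚ) := by
    have h := surfaceChi_eq (p := p) (G := G) 0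
    rw [sum_surfaceCount_one] at h
    exact h
  refine ⟨?_, ?_, ?_⟩
  · rw [hkrc, h1, neg_inj]
    constructor
    · intro h
      rw [h]
      norm_cast
    · intro h
      exact_mod_cast h
  · intro N g hg hd
    obtain ⟨n, rfl⟩ : ∃ n, g = n + 1 := ⟨g - 1, by omega⟩
    have hn0 : n ≠ 0 := by omega
    rw [Nat.add_sub_cancel] at hd
    obtain ⟨c, hc⟩ := alternatingSum_mod' (p := p) (G := G) hn0 hd
    refine ⟨-c, ?_⟩
    rw [surfaceChi_eq]
    have h2 := congrArg (Int.cast : ℤ → ℚ) hc
    push_cast at h2 ⊢
    linarith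
  · rw [hkrc]
    exact continuity_iff

end Pool.Agent.Results.MP_b6945b_al.SurfaceGroupContinuity
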